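import Pool.Agent.BEJ.Stmts

set_option autoImplicit false

/-!
# BEJ, row YDE: the derivatives of `y` and the Bessel equation
-/

namespace Pool.Agent.BEJ.H77

open Set Filter Topology MeasureTheory
open Pool.Agent.BEJ

/-- The derivative of the imaginary part. -/
theorem yde_im {f : ℝ → ℂ} {f' : ℂ} {x : ℝ} (h : HasDerivAt f f' x) :
    HasDerivAt (fun t : ℝ => (f t).im) f'.im x := by
  have h1 := (Complex.imCLM.hasFDerivAt (x := f x)).comp_hasDerivAt x h
  exact h1

/-- The derivative of `e^(ix)`. -/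
theorem yde_exp (x : ℝ) :
    HasDerivAt (fun t : ℝ => Complex.exp (t * Complex.I))
      (Complex.exp (x * Complex.I) * Complex.I) x := by
  have h0 : HasDerivAt (fun t : ℝ => (t : ℂ) * Complex.I) (1 * Complex.I) x :=
    (Complex.ofRealCLM.hasDerivAt (x := x)).mul_const Complex.I
  have h1 := h0.cexp
  rw [one_mul] at h1
  exact h1

/-- **YDE** -/
theorem yde (qde : QdeStmt) : YdeStmt := by
  intro x hx
  obtain ⟨-, hd, he⟩ := qde
  have he' := he x hx
  have hE := yde_exp x
  have h0 := hd 0 x hx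
  have h1 := hd 1 x hx
  refine ⟨?_, ?_, ?_⟩
  · have h2 := yde_im (hE.mul h0)
    have h3 : Complex.exp (x * Complex.I) * Complex.I * QQ 0 x +
        Complex.exp (x * Complex.I) * -QQ (0 + 1) x =
        Complex.exp (x * Complex.I) * (Complex.I * QQ 0 x - QQ 1 x) := by
      rw [zero_add]; ring
    rw [h3] at h2
    exact h2
  · have h2 := yde_im (hE.mul ((h0.const_mul Complex.I).sub h1))
    have h3 : Complex.exp (x * Complex.I) * Complex.I * (Complex.I * QQ 0 x - QQ 1 x) +
        Complex.exp (x * Complex.I) * (Complex.I * -QQ (0 + 1) x - -QQ (1 + 1) x) =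
        Complex.exp (x * Complex.I) * (- QQ 0 x - 2 * Complex.I * QQ 1 x + QQ 2 x) := by
      rw [zero_add, one_add_one_eq_two]
      linear_combination Complex.exp (x * Complex.I) * QQ 0 x * Complex.I_mul_I
    have h4 : HasDerivAt y1 (Complex.exp (x * Complex.I) * Complex.I *
        (Complex.I * QQ 0 x - QQ 1 x) + Complex.exp (x * Complex.I) *
        (Complex.I * -QQ (0 + 1) x - -QQ (1 + 1) x)).im x := h2
    rw [h3] at h4
    exact h4
  · have h5 : ∀ (r : ℝ) (z : ℂ), r * z.im = ((r : ℂ) * z).im := fun r z => by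
      rw [Complex.im_ofReal_mul]
    show x * (Complex.exp (x * Complex.I) * (- QQ 0 x - 2 * Complex.I * QQ 1 x + QQ 2 x)).im +
      (Complex.exp (x * Complex.I) * (Complex.I * QQ 0 x - QQ 1 x)).im +
      x * (Complex.exp (x * Complex.I) * QQ 0 x).im = 0
    rw [h5, h5, ← Complex.add_im, ← Complex.add_im]
    have h6 : (x : ℂ) * (Complex.exp (x * Complex.I) *
        (- QQ 0 x - 2 * Complex.I * QQ 1 x + QQ 2 x)) +
        Complex.exp (x * Complex.I) * (Complex.I * QQ 0 x - QQ 1 x) +
        (x : ℂ) * (Complex.exp (x * Complex.I) * QQ 0 x) = 0 := by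
      linear_combination Complex.exp (x * Complex.I) * he'
    rw [h6]
    rfl

end Pool.Agent.BEJ.H77
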